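import Pool.Agent.H.MP_e6b5d0_co.D

namespace Pool.Agent.Results.MP_e6b5d0_co.NoBound

/-- A ray: a one-way infinite path. -/
def IsRay {V : Type} (G : SimpleGraph V) (r : ℕ → V) : Prop :=
  Function.Injective r ∧ ∀ n, G.Adj (r n) (r (n + 1))

/-- No finite vertex set separates the tails of the two rays: for every finite `S`, all late
vertices of `r` are joined to all late vertices of `r'` by walks avoiding `S`. -/
def RayEquiv {V : Type} (G : SimpleGraph V) (r r' : ℕ → V) : Prop :=
  ∀ S : Set V, S.Finite → ∃ N, ∀ i ≥ N, ∀ j ≥ N,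
    ∃ w : G.Walk (r i) (r' j), ∀ v ∈ w.support, v ∉ S

/-- Exactly two ends: two inequivalent rays such that every ray is equivalent to one of them. -/
def TwoEnded {V : Type} (G : SimpleGraph V) : Prop :=
  ∃ r₁ r₂, IsRay G r₁ ∧ IsRay G r₂ ∧ ¬ RayEquiv G r₁ r₂ ∧
    ∀ r, IsRay G r → RayEquiv G r r₁ ∨ RayEquiv G r r₂

/-- Some group of automorphisms acts freely with exactly `n` orbits. -/
def NCayley {V : Type} (G : SimpleGraph V) (n : ℕ) : Prop :=
  ∃ Γ : Subgroup (G ≃g G), (∀ γ ∈ Γ, ∀ v, γ v = v → γ = 1) ∧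
    Nonempty (MulAction.orbitRel.Quotient Γ V ≃ Fin n)

open Pool.Agent.H.MP_e6b5d0_co in
theorem result (n : ℕ) : ∃ (V : Type) (G : SimpleGraph V), G.Connected ∧
    (∀ v, (G.neighborSet v).ncard = 6) ∧ (∀ u v, ∃ φ : G ≃g G, φ u = v) ∧ TwoEnded G ∧
    ∀ n' ≤ n, ¬ NCayley G n' := by
  obtain ⟨p, hp, pp⟩ := Nat.exists_infinite_primes (16 * n + 4)
  obtain ⟨m, rfl⟩ : ∃ m, p = m + 4 := ⟨p - 4, by omega⟩
  have hodd : Odd (m + 4) := pp.odd_of_ne_two (by omega)
  have : Fact (m + 4).Prime := ⟨pp⟩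
  refine ⟨Vx m, X m, conn, deg, vt, ?_, ?_⟩
  · refine ⟨fun i => ((i : ℤ), 0), fun i => (-(i : ℤ), 0), ⟨?_, ?_⟩, ⟨?_, ?_⟩, ?_, ?_⟩
    · intro i j h
      simpa using h
    · intro i
      exact Or.inr (Or.inr (Or.inl ⟨by simp, rfl⟩))
    · intro i j h
      simpa using h
    · intro i
      exact Or.inr (Or.inr (Or.inr ⟨by simp, rfl⟩))
    · intro h
      obtain ⟨N, hN⟩ := h {v | v.1 = 0} ((slab 0).subset (fun v hv => by
        have : v.1 = 0 := hv
        constructor <;> omega))
      have := not_J (hN (N + 1) (by omega) N le_rfl) (by positivity)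
      simp only at this
      omega
    · intro r hr
      rcases ray_dir r hr.1 hr.2 with h | h
      · left
        intro S hS
        obtain ⟨B, hB⟩ := bd S hS
        obtain ⟨N, hN⟩ := h B
        refine ⟨max N (B + 1), fun i hi j hj => J_all S _ _ (fun v hv => Or.inl ?_)⟩
        have := hB v hv
        have := hN i (le_of_max_le_left hi)
        have := le_of_max_le_right hj
        simp only
        omega
      · right
        intro S hS
        obtain ⟨B, hB⟩ := bd S hS
        obtain ⟨N, hN⟩ := h B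
        refine ⟨max N (B + 1), fun i hi j hj => J_all S _ _ (fun v hv => Or.inr ?_)⟩
        have := hB v hv
        have := hN i (le_of_max_le_left hi)
        have := le_of_max_le_right hj
        simp only
        omega
  · rintro n' hn' ⟨Γ, hfree, ⟨e⟩⟩
    exact count (Γ := Γ) (X m) (fun γ x y h => γ.1.map_adj_iff.mpr h)
      (fun γ v h => Subtype.ext (hfree γ.1 γ.2 v h)) n' e (m + 4) 6 16 deg deg_fin
      (W_fin hodd) (W_lo hodd) (W_hi hodd) (by omega)

end Pool.Agent.Results.MP_e6b5d0_co.NoBound
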